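import Pool.Agent.Lead.Mix

namespace Pool.Agent.Results.MP_378045_ag.Counterexample

open Pool.Agent.Lead.Mix
open scoped ComplexOrder

theorem result : ∃ (n l : ℕ) (f : MvPolynomial (Fin l) ℝ), f.IsHomogeneous n ∧ f ≠ 0 ∧
    (∀ z : Fin l → ℂ, (∀ k, 0 < (z k).im) → MvPolynomial.aeval z f ≠ 0) ∧
    (∀ s, 0 ≤ f.coeff s) ∧
    ∀ (m : ℕ), 0 < m → ∀ A : Fin m → Fin l → Matrix (Fin n) (Fin n) ℂ,
      (∀ j k, (A j k).PosSemidef) →
      MvPolynomial.map (algebraMap ℝ ℂ) f ≠ eta fun j => pencil (A j) :=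
  ⟨2, 7, ff, ff_hom, fun h => ff_stable (fun _ => Complex.I) (by simp) (by rw [h, map_zero]),
    ff_stable, ff_coeff, fun _ hm A hA => main hm A hA⟩

end Pool.Agent.Results.MP_378045_ag.Counterexample
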